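import Pool.Agent.Helper8.SPV.Stmts3

set_option autoImplicit false

namespace Pool.Agent.Helper8.SPV

open AlgebraicGeometry CategoryTheory CategoryTheory.Limits Opposite

theorem CENTER_aux {k : Type} [Field k] {X : Scheme.{0}} (s : X ⟶ Spec (.of k)) (x : X) :
    X.fromSpecStalk x ≫ s = Spec.map ((Scheme.ΓSpecIso (.of k)).inv ≫ s.appTop ≫
      X.presheaf.germ ⊤ x trivial) := by
  obtain ⟨φ, hφ⟩ : ∃ φ : CommRingCat.of k ⟶ X.presheaf.stalk x,
    Spec.map φ = X.fromSpecStalk x ≫ s := Spec.map_surjective _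
  rw [← hφ]
  congr 1
  have h1 := congrArg (fun f => f.appTop) hφ
  have h2 : (X.fromSpecStalk x ≫ s).appTop = s.appTop ≫ (X.fromSpecStalk x).appTop :=
    Scheme.Hom.comp_appTop _ _
  have h3 : (X.fromSpecStalk x).appTop = X.presheaf.germ ⊤ x trivial ≫
      (Scheme.ΓSpecIso (X.presheaf.stalk x)).inv := Scheme.fromSpecStalk_appTop
  have h4 : (Spec.map φ).appTop = (Scheme.ΓSpecIso (.of k)).hom ≫ φ ≫
      (Scheme.ΓSpecIso (X.presheaf.stalk x)).inv := by
    rw [Scheme.ΓSpecIso_inv_naturality, Iso.hom_inv_id_assoc]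
  have h5 : (Scheme.ΓSpecIso (.of k)).hom ≫ φ ≫ (Scheme.ΓSpecIso (X.presheaf.stalk x)).inv =
      s.appTop ≫ X.presheaf.germ ⊤ x trivial ≫
        (Scheme.ΓSpecIso (X.presheaf.stalk x)).inv := by
    rw [← h4, ← h3, ← h2]
    exact h1
  rw [← cancel_epi (Scheme.ΓSpecIso (.of k)).hom,
      ← cancel_mono (Scheme.ΓSpecIso (X.presheaf.stalk x)).inv]
  rw [Category.assoc, h5, Iso.hom_inv_id_assoc, Category.assoc]

theorem CENTER_gen {k : Type} [Field k] {X : Scheme.{0}} [IsIntegral X] (s : X ⟶ Spec (.of k)) :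
    gpt s ≫ s = Spec.map (CommRingCat.ofHom (algebraMap k (FF s))) :=
  CENTER_aux s (genericPoint X)

theorem st_CENTER : ST_CENTER := by
  intro k _ X _ s _ R hR
  let κ : k →+* R := (algebraMap k (FF s)).codRestrict R.toSubring hR
  have w : gpt s ≫ s = Spec.map (CommRingCat.ofHom (algebraMap R (FF s))) ≫
      Spec.map (CommRingCat.ofHom κ) := by
    rw [CENTER_gen, ← Spec.map_comp]
    rfl
  have hv : ValuativeCriterion.Existence s := by
    have h : ValuativeCriterion s := by
      have h' : IsProper s := inferInstance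
      rw [IsProper.eq_valuativeCriterion] at h'
      exact h'.1.1.1
    exact h.existence
  obtain ⟨l, hl₁, hl₂⟩ := (hv { R := R, K := FF s, commSq := ⟨w⟩, .. }).exists_lift
  dsimp only at l hl₁ hl₂
  set c : Spec (CommRingCat.of R) := IsLocalRing.closedPoint R with hc
  refine ⟨l c, ?_⟩
  rintro _ ⟨b, rfl⟩
  have h1 : Spec.map (Scheme.stalkClosedPointTo l) ≫ X.fromSpecStalk (l c) = l :=
    Scheme.Spec_stalkClosedPointTo_fromSpecStalk l
  let A : X.presheaf.stalk (l c) ⟶ CommRingCat.of R := Scheme.stalkClosedPointTo l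
  let B : CommRingCat.of R ⟶ CommRingCat.of (FF s) := CommRingCat.ofHom (algebraMap R (FF s))
  let D : X.presheaf.stalk (l c) ⟶ CommRingCat.of (FF s) :=
    X.presheaf.stalkSpecializes ((genericPoint_spec X).specializes trivial)
  have hD : Spec.map D ≫ X.fromSpecStalk (l c) = gpt s :=
    Scheme.SpecMap_stalkSpecializes_fromSpecStalk
      (X := X) ((genericPoint_spec X).specializes (trivial : l c ∈ (⊤ : Set X)))
  have h2 : D = A ≫ B := by
    apply Spec.map_injective
    rw [← cancel_mono (X.fromSpecStalk (l c)), hD, Spec.map_comp, Category.assoc]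
    exact hl₁.symm.trans (congrArg _ h1.symm)
  have h3 : algebraMap (X.presheaf.stalk (l c)) X.functionField b =
      (((Scheme.stalkClosedPointTo l).hom b : R) : FF s) := congrArg (fun f => f.hom b) h2
  rw [h3]
  exact SetLike.coe_mem _

end Pool.Agent.Helper8.SPV
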