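import Pool.Agent.Helper24.SPV.FREEa

set_option autoImplicit false

namespace Pool.Agent.Helper8.SPV

open AlgebraicGeometry CategoryTheory CategoryTheory.Limits Opposite
open exteriorPower Set.powersetCard

section

variable {k : Type} [Field k] {X : Scheme.{0}} [IsIntegral X] (s : X ⟶ Spec (.of k))

/-- constants in the sections over `V` -/
noncomputable def FREE_toΓ (V : X.Opens) : k →+* Γ(X, V) :=
  ((Scheme.ΓSpecIso (.of k)).inv ≫ s.appLE ⊤ V le_top).hom

omit [IsIntegral X] in
theorem FREE_smooth [Smooth s] {V : X.Opens} (hV : IsAffineOpen V) :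
    (FREE_toΓ s V).Smooth := by
  have h1 : (s.appLE ⊤ V le_top).hom.Smooth := s.smooth_appLE (isAffineOpen_top _) hV le_top
  have h2 : ((Scheme.ΓSpecIso (.of k)).inv).hom.Smooth :=
    RingHom.Smooth.of_bijective (ConcreteCategory.bijective_of_isIso (Scheme.ΓSpecIso (.of k)).inv)
  exact h2.comp h1

theorem FREE_germ (V : X.Opens) (hV : genericPoint X ∈ V) (c : k) :
    X.presheaf.germ V (genericPoint X) hV (FREE_toΓ s V c) = kToFF s c := by
  have h : ((Scheme.ΓSpecIso (.of k)).inv ≫ s.appLE ⊤ V le_top) ≫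
      X.presheaf.germ V (genericPoint X) hV =
      (Scheme.ΓSpecIso (.of k)).inv ≫ s.appTop ≫ X.presheaf.germ ⊤ (genericPoint X) trivial := by
    rw [Category.assoc]
    have h2 : s.appLE ⊤ V le_top ≫ X.presheaf.germ V (genericPoint X) hV =
        s.appTop ≫ X.presheaf.germ ⊤ (genericPoint X) trivial := by
      change (s.app ⊤ ≫ X.presheaf.map _) ≫ _ = _
      rw [Category.assoc, TopCat.Presheaf.germ_res]
      rfl
    rw [h2]
  exact congrArg (fun f => f.hom c) h

end

/-- the function field as an algebra over the local ring -/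
@[instance_reducible]
noncomputable def FREE_alg {k : Type} [Field k] {X : Scheme.{0}} [IsIntegral X]
    (s : X ⟶ Spec (.of k)) (x : X) : Algebra (X.presheaf.stalk x) (FF s) :=
  inferInstanceAs (Algebra (X.presheaf.stalk x) X.functionField)

theorem FREE_field {K R : Type} [Field K] [Field R] [Algebra K R] (g d a : R) (hd : d ≠ 0)
    (h : g * d = a) : KaehlerDifferential.D K R g = d⁻¹ • (KaehlerDifferential.D K R a -
      g • KaehlerDifferential.D K R d) := by
  have h1 : KaehlerDifferential.D K R a = g • KaehlerDifferential.D K R d +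
      d • KaehlerDifferential.D K R g := by rw [← h, Derivation.leibniz]
  rw [h1, add_sub_cancel_left, smul_smul, inv_mul_cancel₀ hd, one_smul]

theorem st_FREE : ST_FREE := by
  intro k _ _ X _ s _ p x
  obtain ⟨V, hV, hxV, -⟩ := exists_isAffineOpen_mem_and_subset (X := X) (x := x) (U := ⊤) trivial
  have : Nonempty V := ⟨⟨x, hxV⟩⟩
  have hgp : genericPoint X ∈ V :=
    ((genericPoint_spec X).mem_open_set_iff V.isOpen).mpr (by simpa using ⟨x, hxV⟩)
  let iAB : Algebra Γ(X, V) (X.presheaf.stalk x) :=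
    TopCat.Presheaf.algebra_section_stalk X.presheaf (⟨x, hxV⟩ : V)
  let ikA : Algebra k Γ(X, V) := (FREE_toΓ s V).toAlgebra
  let ikB : Algebra k (X.presheaf.stalk x) :=
    ((algebraMap Γ(X, V) (X.presheaf.stalk x)).comp (FREE_toΓ s V)).toAlgebra
  let iBL : Algebra (X.presheaf.stalk x) (FF s) :=
    FREE_alg s x
  have : IsFractionRing (X.presheaf.stalk x) (FF s) :=
    inferInstanceAs (IsFractionRing (X.presheaf.stalk x) X.functionField)
  have : IsScalarTower k Γ(X, V) (X.presheaf.stalk x) := IsScalarTower.of_algebraMap_eq' rfl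
  have hkL : ∀ c : k, algebraMap k (FF s) c = kToFF s c := fun c => rfl
  have : IsScalarTower k (X.presheaf.stalk x) (FF s) := by
    refine IsScalarTower.of_algebraMap_eq fun c => ?_
    rw [hkL, ← FREE_germ s V hgp c]
    exact (Scheme.algebraMap_germ_eq_germToFunctionField X hxV (FREE_toΓ s V c)).symm
  have : Algebra.Smooth k Γ(X, V) := FREE_smooth s hV
  have : IsLocalization.AtPrime (X.presheaf.stalk x) (hV.primeIdealOf ⟨x, hxV⟩).asIdeal :=
    hV.isLocalization_stalk ⟨x, hxV⟩
  obtain ⟨n, f, hli, hsp⟩ := FREE_basis (k := k) (A := Γ(X, V)) (B := X.presheaf.stalk x)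
    (L := FF s) (hV.primeIdealOf ⟨x, hxV⟩).asIdeal
  set v : Fin n → Ω[FF s⁄k] :=
    fun i => KaehlerDifferential.D k (FF s) (algebraMap (X.presheaf.stalk x) (FF s) (f i)) with hv
  have hE := ιMulti_family_linearIndependent_field p hli
  obtain ⟨N, ⟨e⟩⟩ := Finite.exists_equiv_fin (Set.powersetCard (Fin n) p)
  refine ⟨N, fun i => ιMulti_family (FF s) p v (e.symm i), hE.comp _ e.symm.injective, ?_⟩
  intro y hy
  have hyV : y ∈ V := hy.mem_open V.isOpen hxV
  have hran : Set.range (fun i => ιMulti_family (FF s) p v (e.symm i)) =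
      Set.range (ιMulti_family (FF s) p v) :=
    e.symm.surjective.range_comp (ιMulti_family (FF s) p v)
  rw [hran]
  -- the local rings
  have hA : ∀ (z : X) (hz : z ∈ V) (a : Γ(X, V)), X.germToFunctionField V a ∈ locRing s z := by
    intro z hz a
    exact ⟨X.presheaf.germ V z hz a, Scheme.algebraMap_germ_eq_germToFunctionField X hz a⟩
  have hxy : ∀ b : X.presheaf.stalk x, algebraMap (X.presheaf.stalk x) (FF s) b ∈
      locRing s y := by
    intro b
    refine ⟨X.presheaf.stalkSpecializes hy b, ?_⟩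
    have h := TopCat.Presheaf.stalkSpecializes_comp X.presheaf
      ((genericPoint_spec X).specializes (trivial : y ∈ (⊤ : Set X))) hy
    exact congrArg (fun f => f.hom b) h
  apply FREE_ext p _ _ (fun i => hxy (f i))
  rintro g ⟨b', rfl⟩
  let iAC : Algebra Γ(X, V) (X.presheaf.stalk y) :=
    TopCat.Presheaf.algebra_section_stalk X.presheaf (⟨y, hyV⟩ : V)
  have hloc : IsLocalization.AtPrime (X.presheaf.stalk y) (hV.primeIdealOf ⟨y, hyV⟩).asIdeal :=
    hV.isLocalization_stalk ⟨y, hyV⟩
  obtain ⟨⟨a, d⟩, had⟩ := IsLocalization.surj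
    (hV.primeIdealOf ⟨y, hyV⟩).asIdeal.primeCompl b'
  have hdu : IsUnit (X.presheaf.germ V y hyV (d : Γ(X, V))) :=
    IsLocalization.map_units (X.presheaf.stalk y) d
  have hga : ∀ a : Γ(X, V), algebraMap (X.presheaf.stalk y) X.functionField
      (X.presheaf.germ V y hyV a) = algebraMap (X.presheaf.stalk x) X.functionField
      (X.presheaf.germ V x hxV a) := by
    intro a
    rw [Scheme.algebraMap_germ_eq_germToFunctionField X hyV a,
      Scheme.algebraMap_germ_eq_germToFunctionField X hxV a]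
  have h1 : algebraMap (X.presheaf.stalk y) X.functionField b' *
      algebraMap (X.presheaf.stalk x) X.functionField (X.presheaf.germ V x hxV (d : Γ(X, V))) =
      algebraMap (X.presheaf.stalk x) X.functionField (X.presheaf.germ V x hxV a) := by
    rw [← hga, ← hga, ← map_mul]
    exact congrArg _ had
  obtain ⟨u, hu⟩ := hdu
  have h2 : algebraMap (X.presheaf.stalk y) X.functionField (↑u⁻¹ : X.presheaf.stalk y) *
      algebraMap (X.presheaf.stalk x) X.functionField
        (X.presheaf.germ V x hxV (d : Γ(X, V))) = 1 := by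
    rw [← hga, ← hu, ← map_mul, Units.inv_mul, map_one]
  obtain ⟨ca, hca⟩ := hsp (X.presheaf.germ V x hxV a)
  obtain ⟨cd, hcd⟩ := hsp (X.presheaf.germ V x hxV (d : Γ(X, V)))
  set G : FF s := algebraMap (X.presheaf.stalk y) X.functionField b' with hG
  set I : FF s := algebraMap (X.presheaf.stalk y) X.functionField (↑u⁻¹ : X.presheaf.stalk y)
    with hI
  set Dd : FF s := algebraMap (X.presheaf.stalk x) (FF s)
    (X.presheaf.germ V x hxV (d : Γ(X, V))) with hDd
  have h2' : I * Dd = 1 := h2
  have hI2 : I = Dd⁻¹ := eq_inv_of_mul_eq_one_left h2'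
  have hD0 : Dd ≠ 0 := right_ne_zero_of_mul_eq_one h2'
  have h3 := FREE_field (K := k) G Dd _ hD0 h1
  have hGm : G ∈ locRing s y := ⟨b', rfl⟩
  have hIm : I ∈ locRing s y := ⟨_, rfl⟩
  refine ⟨fun i => I * (algebraMap (X.presheaf.stalk x) (FF s) (ca i) -
    G * algebraMap (X.presheaf.stalk x) (FF s) (cd i)), fun i => ?_, ?_⟩
  · exact mul_mem hIm (sub_mem (hxy _) (mul_mem hGm (hxy _)))
  · rw [← hI2] at h3
    refine h3.trans ?_
    rw [hcd]
    refine (congrArg (fun z => I • (z - _)) hca).trans ?_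
    rw [Finset.smul_sum, ← Finset.sum_sub_distrib, Finset.smul_sum]
    refine Finset.sum_congr rfl fun i _ => ?_
    rw [smul_smul, ← sub_smul, smul_smul]

end Pool.Agent.Helper8.SPV
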