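import Pool.Agent.Helper8.SPV.Stmts3

set_option autoImplicit false

namespace Pool.Agent.Helper8.SPV

open exteriorPower Set.powersetCard

section ext

variable {k L : Type} [Field k] [Field L] [Algebra k L]

theorem FREE_mem_aux (p : ℕ) {n : ℕ} (v : Fin n → Ω[L⁄k]) (O : Subring L) (α : Fin p → Fin n) :
    ιMulti L p (v ∘ α) ∈ Submodule.span O (Set.range (ιMulti_family L p v)) := by
  classical
  by_cases hα : Function.Injective α
  swap
  · have h0 : ιMulti L p (v ∘ α) = 0 :=
      AlternatingMap.map_eq_zero_of_not_injective _ _ (fun h => hα (Function.Injective.of_comp h))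
    rw [h0]
    exact zero_mem _
  have α_card : (Finset.image α Finset.univ).card = p :=
    (Finset.card_image_of_injective Finset.univ hα).trans (Finset.card_fin p)
  set σ : Equiv.Perm (Fin p) :=
    (Finset.orderIsoOfFin (Finset.image α Finset.univ) α_card).toEquiv.trans
      ((Equiv.setCongr Fintype.coe_image_univ).trans (Equiv.ofInjective α hα).symm) with hσ
  have h1 : ιMulti L p ((v ∘ α) ∘ σ) ∈ Submodule.span O (Set.range (ιMulti_family L p v)) := by
    apply Submodule.subset_span
    refine ⟨⟨(Finset.image α Finset.univ), α_card⟩, ?_⟩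
    have h2 : α ∘ σ = (ofFinEmbEquiv.symm
        (⟨(Finset.image α Finset.univ), α_card⟩ : Set.powersetCard (Fin n) p) : Fin p → Fin n) := by
      funext i
      simp only [Function.comp_apply, hσ, Equiv.trans_apply, Equiv.apply_ofInjective_symm]
      rfl
    rw [ιMulti_family, Function.comp_assoc, h2]
  have h3 : ιMulti L p (v ∘ α) ∈ Submodule.span O (Set.range (ιMulti_family L p v)) ↔
      ιMulti L p ((v ∘ α) ∘ σ) ∈ Submodule.span O (Set.range (ιMulti_family L p v)) := by
    rw [AlternatingMap.map_perm]
    rcases Int.units_eq_one_or (Equiv.Perm.sign σ) with h | h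
    · rw [h, one_smul]
    · rw [h, Units.neg_smul, one_smul, Submodule.neg_mem_iff]
  exact h3.2 h1

theorem FREE_ext (p : ℕ) {n : ℕ} (f : Fin n → L) (O : Subring L) (hf : ∀ i, f i ∈ O)
    (hO : ∀ g ∈ O, ∃ c : Fin n → L, (∀ i, c i ∈ O) ∧
      KaehlerDifferential.D k L g = ∑ i, c i • KaehlerDifferential.D k L (f i)) :
    forms k L p O = Submodule.span O
      (Set.range (ιMulti_family L p (fun i => KaehlerDifferential.D k L (f i)))) := by
  classical
  apply le_antisymm
  · unfold forms
    rw [Submodule.span_le]
    rintro _ ⟨g, hg, rfl⟩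
    choose c hc hD using fun i => hO (g i) (hg i)
    have h1 : dd k L p g = ∑ α : Fin p → Fin n, (∏ i, c i (α i)) •
        ιMulti L p ((fun i => KaehlerDifferential.D k L (f i)) ∘ α) := by
      unfold dd
      have h2 : (fun i => KaehlerDifferential.D k L (g i)) =
          fun i => ∑ j, c i j • KaehlerDifferential.D k L (f j) := by
        funext i
        exact hD i
      rw [h2]
      have h3 := (ιMulti L p (M := Ω[L⁄k])).toMultilinearMap.map_sum
        (fun i j => c i j • KaehlerDifferential.D k L (f j))
      rw [AlternatingMap.coe_multilinearMap] at h3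
      rw [h3]
      refine Finset.sum_congr rfl fun α _ => ?_
      have h4 := (ιMulti L p (M := Ω[L⁄k])).toMultilinearMap.map_smul_univ
        (fun i => c i (α i)) (fun i => KaehlerDifferential.D k L (f (α i)))
      rw [AlternatingMap.coe_multilinearMap] at h4
      exact h4
    rw [h1]
    refine Submodule.sum_mem _ fun α _ => ?_
    have h5 : (∏ i, c i (α i)) ∈ O := Subring.prod_mem _ fun i _ => hc i _
    exact Submodule.smul_mem _ (⟨_, h5⟩ : O) (FREE_mem_aux p _ O α)
  · rw [Submodule.span_le]
    rintro _ ⟨s, rfl⟩
    apply Submodule.subset_span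
    exact ⟨fun i => f (ofFinEmbEquiv.symm s i), fun i => hf _, rfl⟩

end ext

section alg

variable {k A B L : Type} [Field k] [CommRing A] [CommRing B] [Field L] [Algebra k A]
  [Algebra k B] [Algebra k L] [Algebra A B] [Algebra B L] [IsScalarTower k A B]
  [IsScalarTower k B L] [Algebra.Smooth k A]
  (P : Ideal A) [P.IsPrime] [IsLocalization.AtPrime B P] [IsFractionRing B L]

include A P in
theorem FREE_basis : ∃ (n : ℕ) (f : Fin n → B),
    LinearIndependent L (fun i => KaehlerDifferential.D k L (algebraMap B L (f i))) ∧
    ∀ b : B, ∃ c : Fin n → B, KaehlerDifferential.D k L (algebraMap B L b) =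
      ∑ i, algebraMap B L (c i) • KaehlerDifferential.D k L (algebraMap B L (f i)) := by
  classical
  have : IsLocalRing B := IsLocalization.AtPrime.isLocalRing B P
  have h1 : Algebra.FormallySmooth A B := Algebra.FormallySmooth.of_isLocalization P.primeCompl
  have h2 : Algebra.FormallySmooth k B := Algebra.FormallySmooth.comp k A B
  have h3 : Algebra.EssFiniteType A B := Algebra.EssFiniteType.of_isLocalization B P.primeCompl
  have h4 : Algebra.EssFiniteType k B := Algebra.EssFiniteType.comp k A B
  have h5 : Module.Finite B (Ω[B⁄k]) := inferInstance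
  have h6 : Module.Projective B (Ω[B⁄k]) := inferInstance
  have h7 : Module.FinitePresentation B (Ω[B⁄k]) := Module.finitePresentation_of_projective _ _
  obtain ⟨κ, a, b, hb⟩ := Module.exists_basis_of_span_of_flat (R := B)
    (fun x : B => KaehlerDifferential.D k B x) (KaehlerDifferential.span_range_derivation k B)
  have : Finite κ := Module.Finite.finite_basis b
  obtain ⟨n, ⟨e⟩⟩ := Finite.exists_equiv_fin κ
  let b' := b.reindex e
  have hb' : ∀ i, b' i = KaehlerDifferential.D k B (a (e.symm i)) := by
    intro i
    rw [Module.Basis.reindex_apply]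
    exact hb _
  let φ := KaehlerDifferential.map k k B L
  have hφ : ∀ x : B, φ (KaehlerDifferential.D k B x) =
      KaehlerDifferential.D k L (algebraMap B L x) := fun x => KaehlerDifferential.map_D k k B L x
  let bL := b'.ofIsLocalizedModule L (nonZeroDivisors B) φ
  refine ⟨n, fun i => a (e.symm i), ?_, ?_⟩
  · have h8 : (fun i => KaehlerDifferential.D k L (algebraMap B L (a (e.symm i)))) = bL := by
      funext i
      rw [Module.Basis.ofIsLocalizedModule_apply, hb', hφ]
    rw [h8]
    exact bL.linearIndependent
  · intro x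
    refine ⟨fun i => b'.repr (KaehlerDifferential.D k B x) i, ?_⟩
    have h9 := b'.sum_repr (KaehlerDifferential.D k B x)
    have h10 := congrArg φ h9
    rw [map_sum, hφ] at h10
    rw [← h10]
    refine Finset.sum_congr rfl fun i _ => ?_
    rw [LinearMap.map_smul, hb', hφ, algebraMap_smul]

end alg

end Pool.Agent.Helper8.SPV
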