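import Pool.Agent.Helper24.SPV.CENTER

set_option autoImplicit false

namespace Pool.Agent.Helper8.SPV

open AlgebraicGeometry CategoryTheory CategoryTheory.Limits Opposite

theorem st_GS3 : ST_GS3 := by
  intro k _ _ _ C _ sC _ A _ _ X s j _ hj c f ε hc hf hcf
  set x : C := cpt c with hx
  let κ : CommRingCat.of k ⟶ C.presheaf.stalk x :=
    (Scheme.ΓSpecIso (.of k)).inv ≫ sC.appTop ≫ C.presheaf.germ ⊤ x trivial
  have hκ : C.fromSpecStalk x ≫ sC = Spec.map κ := CENTER_aux sC x
  let χ : C.presheaf.stalk x ⟶ CommRingCat.of k := Scheme.stalkClosedPointTo c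
  have hχ : Spec.map χ ≫ C.fromSpecStalk x = c := Scheme.Spec_stalkClosedPointTo_fromSpecStalk c
  -- the range of `Spec O_c`
  have hfx : f x ∈ Set.range j := by
    set o : Spec (CommRingCat.of k) := IsLocalRing.closedPoint k with ho
    have h1 : f x = (c ≫ f) o := (Scheme.Hom.comp_apply c f o).symm
    rw [h1, hcf, Scheme.Hom.comp_apply]
    exact ⟨_, rfl⟩
  have hrange : Set.range (C.fromSpecStalk x ≫ f) ⊆ Set.range j := by
    rintro _ ⟨y, rfl⟩
    rw [Scheme.Hom.comp_apply]
    have h1 : C.fromSpecStalk x y ⤳ x := by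
      have h2 : C.fromSpecStalk x y ∈ Set.range (C.fromSpecStalk x) := ⟨y, rfl⟩
      rw [Scheme.range_fromSpecStalk] at h2
      exact h2
    exact (h1.map f.continuous).mem_open j.isOpenEmbedding.isOpen_range hfx
  obtain ⟨ψ, hψ⟩ : ∃ ψ : CommRingCat.of A ⟶ C.presheaf.stalk x,
      Spec.map ψ ≫ j = C.fromSpecStalk x ≫ f := by
    obtain ⟨ψ, hψ⟩ := Spec.map_surjective (IsOpenImmersion.lift j (C.fromSpecStalk x ≫ f) hrange)
    exact ⟨ψ, by rw [hψ, IsOpenImmersion.lift_fac]⟩
  let σ : C.presheaf.stalk x ⟶ CommRingCat.of (FF sC) :=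
    C.presheaf.stalkSpecializes ((genericPoint_spec C).specializes trivial)
  have hσ : Spec.map σ ≫ C.fromSpecStalk x = gpt sC :=
    Scheme.SpecMap_stalkSpecializes_fromSpecStalk
      (X := C) ((genericPoint_spec C).specializes (trivial : x ∈ (⊤ : Set C)))
  have hκσ : κ ≫ σ = CommRingCat.ofHom (algebraMap k (FF sC)) := by
    apply Spec.map_injective
    rw [← CENTER_gen, Spec.map_comp, ← hκ, ← hσ, Category.assoc]
  have hκχ : κ ≫ χ = 𝟙 _ := by
    apply Spec.map_injective
    rw [Spec.map_comp, ← hκ, Spec.map_id, ← Category.assoc, hχ, hc]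
  have hψχ : ψ ≫ χ = CommRingCat.ofHom (ε : A →+* k) := by
    apply Spec.map_injective
    rw [← cancel_mono j, ← hcf, Spec.map_comp, Category.assoc, hψ, ← Category.assoc, hχ]
  have halg : CommRingCat.ofHom (algebraMap k A) ≫ ψ ≫ σ =
      CommRingCat.ofHom (algebraMap k (FF sC)) := by
    apply Spec.map_injective
    rw [← CENTER_gen, Spec.map_comp, ← hj, Spec.map_comp, Category.assoc,
      ← Category.assoc (Spec.map ψ), hψ, Category.assoc, hf, ← Category.assoc, hσ]
  let φ : A →ₐ[k] FF sC :=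
    { (ψ ≫ σ).hom with
      commutes' := fun r => congrArg (fun f => f.hom r) halg }
  refine ⟨φ, ?_, ?_⟩
  · have h1 : CommRingCat.ofHom (φ : A →+* FF sC) = ψ ≫ σ := rfl
    rw [h1, Spec.map_comp, Category.assoc, hψ, ← Category.assoc, hσ]
  · intro a
    let b : C.presheaf.stalk x := ψ.hom a - κ.hom (ε a)
    have hb : algebraMap (C.presheaf.stalk x) C.functionField b =
        φ a - algebraMap k (FF sC) (ε a) := by
      have h1 : (κ ≫ σ).hom (ε a) = algebraMap k (FF sC) (ε a) := by rw [hκσ]; rfl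
      rw [← h1]
      exact map_sub σ.hom _ _
    have hχb : χ.hom b = 0 := by
      have h1 : χ.hom (ψ.hom a) = ε a := congrArg (fun f => f.hom a) hψχ
      have h2 : χ.hom (κ.hom (ε a)) = ε a := congrArg (fun f => f.hom (ε a)) hκχ
      have h3 : χ.hom b = χ.hom (ψ.hom a) - χ.hom (κ.hom (ε a)) := map_sub χ.hom _ _
      rw [h3, h1, h2, sub_self]
    by_cases h0 : φ a - algebraMap k (FF sC) (ε a) = 0
    · exact Or.inr h0
    · refine Or.inl ⟨⟨b, hb⟩, ?_⟩
      rintro ⟨b', hb'⟩
      have h1 : b * b' = 1 := by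
        apply IsFractionRing.injective (C.presheaf.stalk x) C.functionField
        rw [map_mul, map_one, hb, hb']
        exact mul_inv_cancel₀ h0
      have h2 : χ.hom b * χ.hom b' = 1 := by rw [← map_mul, h1, map_one]
      rw [hχb, zero_mul] at h2
      exact zero_ne_one h2

end Pool.Agent.Helper8.SPV
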